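import Pool.Agent.helper88.OF.Defs

namespace Pool.Agent.helper88.OF

open Finset Pool.Agent.helper76.LP

theorem exists_tw (m : ℕ) [NeZero m] : ∃ u : (ZMod m)ˣ, IsTw m u := by
  classical
  have hm0 : m ≠ 0 := NeZero.ne m
  obtain ⟨a, k, hk3, hmk⟩ := Nat.exists_eq_pow_mul_and_not_dvd hm0 3 (by norm_num)
  have hcop : Nat.Coprime (3 ^ a) k :=
    Nat.Coprime.pow_left a ((Nat.Prime.coprime_iff_not_dvd Nat.prime_three).2 hk3)
  -- integer w with w = -1 mod 3^a, w = 1 mod k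
  obtain ⟨w, hw1, hw2⟩ : ∃ w : ℤ, ((3 ^ a : ℕ) : ℤ) ∣ w + 1 ∧ (k : ℤ) ∣ w - 1 := by
    have hc : IsCoprime (((3 ^ a : ℕ)) : ℤ) (k : ℤ) := Nat.isCoprime_iff_coprime.2 hcop
    obtain ⟨x, y, hxy⟩ := hc
    refine ⟨x * ((3 ^ a : ℕ) : ℤ) - y * k, ⟨2 * x, ?_⟩, ⟨-2 * y, ?_⟩⟩
    · linear_combination -hxy
    · linear_combination hxy
  have hww : (m : ℤ) ∣ w * w - 1 := by
    have : (m : ℤ) = ((3 ^ a : ℕ) : ℤ) * (k : ℤ) := by rw [hmk]; push_cast; ring
    rw [this]
    have h : w * w - 1 = (w + 1) * (w - 1) := by ring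
    rw [h]; exact mul_dvd_mul hw1 hw2
  have hww' : (w : ZMod m) * (w : ZMod m) = 1 := by
    have := (ZMod.intCast_zmod_eq_zero_iff_dvd (w * w - 1) m).2 hww
    have h2 : (((w * w - 1 : ℤ)) : ZMod m) = (w : ZMod m) * (w : ZMod m) - 1 := by push_cast; ring
    rw [h2] at this; exact sub_eq_zero.1 this
  let u : (ZMod m)ˣ := ⟨(w : ZMod m), (w : ZMod m), hww', hww'⟩
  have hval : ∀ (D : ℕ) (hD : D ∣ m), ((ZMod.unitsMap hD u : (ZMod D)ˣ) : ZMod D) = (w : ZMod D) := by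
    intro D hD
    rw [ZMod.unitsMap_def, Units.coe_map]
    show (ZMod.castHom hD (ZMod D)) ((w : ZMod m)) = _
    rw [map_intCast]
  have hk : ∀ (D : ℕ), D ∣ m → ¬ 3 ∣ D → D ∣ k := by
    intro D hD h3
    have hc : Nat.Coprime D (3 ^ a) := (Nat.Coprime.pow_left a
      ((Nat.Prime.coprime_iff_not_dvd Nat.prime_three).2 h3)).symm
    rw [hmk] at hD
    exact hc.dvd_of_dvd_mul_left hD
  refine ⟨u, ?_, ?_, ?_⟩
  · exact Units.ext hww'
  · intro D hD h3
    apply Units.ext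
    rw [hval D hD, Units.val_one]
    have hDk : (D : ℤ) ∣ w - 1 := (Int.natCast_dvd_natCast.2 (hk D hD h3)).trans hw2
    have := (ZMod.intCast_zmod_eq_zero_iff_dvd (w - 1) D).2 hDk
    push_cast at this; exact sub_eq_zero.1 this
  · intro D hD h3 h9
    have hDk3 : ¬ 3 ∣ D / 3 := by
      intro h; apply h9
      obtain ⟨e, he⟩ := h
      obtain ⟨f, hf⟩ := h3
      rw [hf, Nat.mul_div_cancel_left _ (by norm_num : 0 < 3)] at he
      exact ⟨e, by rw [hf, he]; ring⟩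
    constructor
    · unfold Gam
      rw [dif_pos h3, MonoidHom.mem_ker]
      apply Units.ext
      have hv := hval (D / 3) ((Nat.div_dvd_of_dvd h3).trans hD)
      have hcomp : ZMod.unitsMap (Nat.div_dvd_of_dvd h3) (ZMod.unitsMap hD u)
          = ZMod.unitsMap ((Nat.div_dvd_of_dvd h3).trans hD) u := by
        rw [← MonoidHom.comp_apply, ZMod.unitsMap_comp]
      rw [hcomp, hv, Units.val_one]
      have hDk : ((D / 3 : ℕ) : ℤ) ∣ w - 1 :=
        (Int.natCast_dvd_natCast.2 (hk (D / 3) ((Nat.div_dvd_of_dvd h3).trans hD) hDk3)).trans hw2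
      have := (ZMod.intCast_zmod_eq_zero_iff_dvd (w - 1) (D / 3)).2 hDk
      push_cast at this; exact sub_eq_zero.1 this
    · intro h1
      have h1' := congrArg (fun z : (ZMod D)ˣ => (z : ZMod D)) h1
      simp only [Units.val_one] at h1'
      rw [hval D hD] at h1'
      have h4 : (D : ℤ) ∣ w - 1 := by
        rw [← ZMod.intCast_zmod_eq_zero_iff_dvd]; push_cast; rw [h1', sub_self]
      have h5 : (3 : ℤ) ∣ w - 1 := (by exact_mod_cast h3 : (3 : ℤ) ∣ (D : ℤ)).trans h4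
      have ha : a ≠ 0 := by
        intro h0
        rw [h0, pow_zero, one_mul] at hmk
        exact hk3 (hmk ▸ h3.trans hD)
      have h6 : (3 : ℤ) ∣ w + 1 := by
        refine dvd_trans ?_ hw1
        obtain ⟨b, hb⟩ := Nat.exists_eq_succ_of_ne_zero ha
        rw [hb, pow_succ]; push_cast
        exact Dvd.intro_left _ rfl
      omega

end Pool.Agent.helper88.OF
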