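import Pool.Agent.helper86.OF.SpecB

set_option autoImplicit false

open scoped BigOperators

namespace Pool.Agent.OF

noncomputable section

open Classical

set_option linter.unusedSectionVars false

variable {V : Type} [Fintype V]

/-- the missing colours -/
def INI_M (G : SimpleGraph V) (D : ℕ) (φ : Sym2 V → ℕ) (v : V) : Finset ℕ :=
  (Finset.range D).filter fun i => ¬ has G φ v i

/-- enumeration of the missing colours -/
def INI_f (G : SimpleGraph V) (D : ℕ) (φ : Sym2 V → ℕ) (v : V) (j : ℕ) : ℕ :=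
  if h : j < (INI_M G D φ v).card then (INI_M G D φ v).orderEmbOfFin rfl ⟨j, h⟩ else 0

theorem INI_f_mem (G : SimpleGraph V) (D : ℕ) (φ : Sym2 V → ℕ) (v : V) (j : ℕ)
    (h : j < (INI_M G D φ v).card) : INI_f G D φ v j ∈ INI_M G D φ v := by
  unfold INI_f
  rw [dif_pos h]
  exact Finset.orderEmbOfFin_mem _ _ _

theorem INI_f_inj (G : SimpleGraph V) (D : ℕ) (φ : Sym2 V → ℕ) (v : V) (j j' : ℕ)
    (h : j < (INI_M G D φ v).card) (h' : j' < (INI_M G D φ v).card)
    (he : INI_f G D φ v j = INI_f G D φ v j') : j = j' := by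
  unfold INI_f at he
  rw [dif_pos h, dif_pos h'] at he
  have := ((INI_M G D φ v).orderEmbOfFin rfl).injective he
  simpa using this

theorem INI_f_surj (G : SimpleGraph V) (D : ℕ) (φ : Sym2 V → ℕ) (v : V) (i : ℕ)
    (h : i ∈ INI_M G D φ v) : ∃ j, j < (INI_M G D φ v).card ∧ INI_f G D φ v j = i := by
  have h1 : i ∈ Set.range ((INI_M G D φ v).orderEmbOfFin rfl) := by
    rw [Finset.range_orderEmbOfFin]
    exact h
  obtain ⟨⟨j, hj⟩, hji⟩ := h1
  refine ⟨j, hj, ?_⟩
  unfold INI_f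
  rw [dif_pos hj]
  exact hji

/-- the colouring of the graph with tokens -/
def INI_c (G : SimpleGraph V) (D : ℕ) (φ : Sym2 V → ℕ) : Sym2 (PT V D) → ℕ :=
  Sym2.lift ⟨fun a b => match a, b with
    | Sum.inl v, Sum.inl w => φ s(v, w)
    | Sum.inl _, Sum.inr (w, j) => INI_f G D φ w j
    | Sum.inr (w, j), Sum.inl _ => INI_f G D φ w j
    | Sum.inr _, Sum.inr _ => 0, by
      intro a b
      rcases a with v | ⟨v, j⟩ <;> rcases b with w | ⟨w, k⟩
      · simp only [Sym2.eq_swap]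
      · rfl
      · rfl
      · rfl⟩

theorem INI_c_ll (G : SimpleGraph V) (D : ℕ) (φ : Sym2 V → ℕ) (v w : V) :
    INI_c G D φ s(Sum.inl v, Sum.inl w) = φ s(v, w) := rfl

theorem INI_c_lr (G : SimpleGraph V) (D : ℕ) (φ : Sym2 V → ℕ) (v w : V) (j : Fin D) :
    INI_c G D φ s(Sum.inl v, Sum.inr (w, j)) = INI_f G D φ w j := rfl

theorem INI_c_rl (G : SimpleGraph V) (D : ℕ) (φ : Sym2 V → ℕ) (v w : V) (j : Fin D) :
    INI_c G D φ s(Sum.inr (w, j), Sum.inl v) = INI_f G D φ w j := rfl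

theorem INI_adj_ll (G : SimpleGraph V) (X : Finset V) (D : ℕ) (x0 y0 v w : V) :
    (Kd (tokG G X D) (Sum.inl x0) (Sum.inl y0)).Adj (Sum.inl v) (Sum.inl w) ↔
      (Kd G x0 y0).Adj v w ∧ ¬ (v ∈ X ∧ w ∈ X) := by
  have h1 : s((Sum.inl v : PT V D), (Sum.inl w : PT V D)) =
      s((Sum.inl x0 : PT V D), (Sum.inl y0 : PT V D)) ↔ s(v, w) = s(x0, y0) := by
    simp only [Sym2.eq_iff, Sum.inl.injEq]
  simp only [Kd, tokG, SimpleGraph.deleteEdges_adj, Set.mem_singleton_iff,
    SimpleGraph.fromRel_adj, outG, h1]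
  constructor
  · rintro ⟨⟨hne, h | h⟩, h2⟩
    · exact ⟨⟨h.1, h2⟩, h.2⟩
    · exact ⟨⟨h.1.symm, h2⟩, fun h3 => h.2 ⟨h3.2, h3.1⟩⟩
  · rintro ⟨⟨h, h2⟩, h3⟩
    exact ⟨⟨fun h4 => G.ne_of_adj h (Sum.inl_injective h4), Or.inl ⟨h, h3⟩⟩, h2⟩

theorem INI_adj_lr (G : SimpleGraph V) (X : Finset V) (D : ℕ) (x0 y0 v w : V) (j : Fin D) :
    (Kd (tokG G X D) (Sum.inl x0) (Sum.inl y0)).Adj (Sum.inl v) (Sum.inr (w, j)) ↔
      v = w ∧ v ∈ X ∧ (j : ℕ) + dg G v < D := by
  simp only [Kd, tokG, SimpleGraph.deleteEdges_adj, Set.mem_singleton_iff,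
    SimpleGraph.fromRel_adj]
  constructor
  · rintro ⟨⟨hne, h | h⟩, h2⟩
    · exact h
    · exact h.elim
  · intro h
    refine ⟨⟨by simp, Or.inl h⟩, ?_⟩
    simp

theorem INI_adj_rr (G : SimpleGraph V) (X : Finset V) (D : ℕ) (x0 y0 : V) (a b : V × Fin D) :
    ¬ (Kd (tokG G X D) (Sum.inl x0) (Sum.inl y0)).Adj (Sum.inr a) (Sum.inr b) := by
  simp only [Kd, tokG, SimpleGraph.deleteEdges_adj, Set.mem_singleton_iff,
    SimpleGraph.fromRel_adj]
  rintro ⟨⟨hne, h | h⟩, h2⟩
  · exact h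
  · exact h

theorem INI_dg (G : SimpleGraph V) (x0 y0 v : V) (h1 : v ≠ x0) (h2 : v ≠ y0) :
    dg (Kd G x0 y0) v = dg G v := by
  unfold dg dgs
  congr 1
  ext w
  simp only [Finset.mem_filter, Kd, SimpleGraph.deleteEdges_adj, Set.mem_singleton_iff,
    Sym2.eq_iff]
  constructor
  · rintro ⟨h, h3⟩
    exact ⟨h, h3.1⟩
  · rintro ⟨h, h3⟩
    exact ⟨h, h3, by rintro (⟨h4, _⟩ | ⟨h4, _⟩) <;> contradiction⟩

theorem INI_dg1 (G H : SimpleGraph V) (x0 y0 : V) (h : G.Adj x0 y0)
    (hH : ∀ w, H.Adj x0 w ↔ G.Adj x0 w ∧ w ≠ y0) : dg H x0 + 1 = dg G x0 := by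
  unfold dg dgs
  have he : (Finset.univ.filter fun w => H.Adj x0 w) =
      (Finset.univ.filter fun w => G.Adj x0 w).erase y0 := by
    ext w
    simp only [Finset.mem_filter, Finset.mem_erase, hH, Finset.mem_univ, true_and]
    exact and_comm
  rw [he]
  exact Finset.card_erase_add_one (by simp [h])

theorem INI_dg0 (G : SimpleGraph V) (x0 y0 : V) (h : G.Adj x0 y0) :
    dg (Kd G x0 y0) x0 + 1 = dg G x0 := by
  refine INI_dg1 G (Kd G x0 y0) x0 y0 h fun w => ?_
  simp only [Kd, SimpleGraph.deleteEdges_adj, Set.mem_singleton_iff]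
  constructor
  · rintro ⟨h1, h2⟩
    exact ⟨h1, fun h3 => h2 (by rw [h3])⟩
  · rintro ⟨h1, h2⟩
    refine ⟨h1, fun h3 => ?_⟩
    rw [Sym2.eq_iff] at h3
    rcases h3 with ⟨_, h4⟩ | ⟨h4, _⟩
    · exact h2 h4
    · exact G.ne_of_adj h h4

theorem INI_cardM (hSCN : SCN_stmt) (G : SimpleGraph V) (D : ℕ) (φ : Sym2 V → ℕ)
    (h : PEC G D φ) (v : V) : (INI_M G D φ v).card + dg G v = D := by
  have h1 := hSCN V G D φ h v
  have h2 := Finset.card_filter_add_card_filter_not (s := Finset.range D)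
    (fun i => has G φ v i)
  rw [Finset.card_range, h1] at h2
  unfold INI_M
  omega

theorem INI (hSCN : SCN_stmt) (hPTN : PTN_stmt) : INI_stmt := by
  intro V _ G D X x0 y0 hdeg hx0 hy0 hadj hd0 hEC
  obtain ⟨φ, hφ⟩ := hEC
  change PEC (Kd G x0 y0) D φ at hφ
  have hM := INI_cardM hSCN (Kd G x0 y0) D φ hφ
  have hMle : ∀ v, D - dg G v ≤ (INI_M (Kd G x0 y0) D φ v).card := by
    intro v
    have h1 := hM v
    have h2 : dg (Kd G x0 y0) v ≤ dg G v := by
      unfold dg dgs
      refine Finset.card_le_card ?_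
      intro w hw
      simp only [Finset.mem_filter, Kd, SimpleGraph.deleteEdges_adj] at hw ⊢
      exact ⟨hw.1, hw.2.1⟩
    omega
  have hMx : ∀ v ∈ X, v ≠ x0 → (INI_M (Kd G x0 y0) D φ v).card = D - dg G v := by
    intro v hv hne
    have h1 := hM v
    rw [INI_dg G x0 y0 v hne (fun h => hy0 (h ▸ hv))] at h1
    omega
  have hMx0 : (INI_M (Kd G x0 y0) D φ x0).card = 1 := by
    have h1 := hM x0
    have h2 := INI_dg0 G x0 y0 hadj
    omega
  obtain ⟨α, hα⟩ := Finset.card_eq_one.1 hMx0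
  have hαM : α ∈ INI_M (Kd G x0 y0) D φ x0 := by rw [hα]; simp
  have hαD : α < D := by
    have := (Finset.mem_filter.1 hαM).1
    simpa using this
  have hαh : ¬ has (Kd G x0 y0) φ x0 α := (Finset.mem_filter.1 hαM).2
  set c := INI_c (Kd G x0 y0) D φ with hc
  set K' := Kd (tokG G X D) (Sum.inl x0) (Sum.inl y0) with hK'
  -- properness
  have hpec : PEC K' D c := by
    constructor
    · intro a b hab
      rcases a with v | ⟨v, j⟩ <;> rcases b with w | ⟨w, k⟩
      · rw [hK', INI_adj_ll] at hab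
        rw [hc, INI_c_ll]
        exact hφ.1 _ _ hab.1
      · rw [hK', INI_adj_lr] at hab
        obtain ⟨rfl, _, hk⟩ := hab
        rw [hc, INI_c_lr]
        have := INI_f_mem (Kd G x0 y0) D φ v k (lt_of_lt_of_le (by omega) (hMle v))
        have := (Finset.mem_filter.1 this).1
        simpa using this
      · have hab' := hab.symm
        rw [hK', INI_adj_lr] at hab'
        obtain ⟨rfl, _, hk⟩ := hab'
        rw [hc, INI_c_rl]
        have := INI_f_mem (Kd G x0 y0) D φ w j (lt_of_lt_of_le (by omega) (hMle w))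
        have := (Finset.mem_filter.1 this).1
        simpa using this
      · exact (INI_adj_rr G X D x0 y0 _ _ hab).elim
    · intro a b b' hab hab' heq
      rcases a with v | ⟨v, j⟩
      · rcases b with w | ⟨w, k⟩ <;> rcases b' with w' | ⟨w', k'⟩
        · rw [hK', INI_adj_ll] at hab hab'
          rw [hc, INI_c_ll, INI_c_ll] at heq
          rw [hφ.2 _ _ _ hab.1 hab'.1 heq]
        · rw [hK', INI_adj_ll] at hab
          rw [hK', INI_adj_lr] at hab'
          obtain ⟨rfl, _, hk⟩ := hab'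
          rw [hc, INI_c_ll, INI_c_lr] at heq
          have h1 := INI_f_mem (Kd G x0 y0) D φ v k' (lt_of_lt_of_le (by omega) (hMle v))
          have h2 := (Finset.mem_filter.1 h1).2
          exact (h2 ⟨w, hab.1, heq⟩).elim
        · rw [hK', INI_adj_ll] at hab'
          rw [hK', INI_adj_lr] at hab
          obtain ⟨rfl, _, hk⟩ := hab
          rw [hc, INI_c_ll, INI_c_lr] at heq
          have h1 := INI_f_mem (Kd G x0 y0) D φ v k (lt_of_lt_of_le (by omega) (hMle v))
          have h2 := (Finset.mem_filter.1 h1).2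
          exact (h2 ⟨w', hab'.1, heq.symm⟩).elim
        · rw [hK', INI_adj_lr] at hab hab'
          obtain ⟨rfl, _, hk⟩ := hab
          obtain ⟨rfl, _, hk'⟩ := hab'
          rw [hc, INI_c_lr, INI_c_lr] at heq
          have h1 := INI_f_inj (Kd G x0 y0) D φ v k k' (lt_of_lt_of_le (by omega) (hMle v))
            (lt_of_lt_of_le (by omega) (hMle v)) heq
          rw [Fin.ext h1]
      · rcases b with w | b
        · rcases b' with w' | b'
          · have hab1 := hab.symm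
            have hab2 := hab'.symm
            rw [hK', INI_adj_lr] at hab1 hab2
            rw [hab1.1, hab2.1]
          · exact (INI_adj_rr G X D x0 y0 _ _ hab').elim
        · exact (INI_adj_rr G X D x0 y0 _ _ hab).elim
  -- presence at the vertices of X
  have hhas : ∀ v ∈ X, ∀ i, has K' c (Sum.inl v) i ↔
      (∃ w, w ∉ X ∧ (Kd G x0 y0).Adj v w ∧ φ s(v, w) = i) ∨
        ∃ j, j < D - dg G v ∧ INI_f (Kd G x0 y0) D φ v j = i := by
    intro v hv i
    constructor
    · rintro ⟨b, hb, hbi⟩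
      rcases b with w | ⟨w, j⟩
      · rw [hK', INI_adj_ll] at hb
        rw [hc, INI_c_ll] at hbi
        exact Or.inl ⟨w, fun hw => hb.2 ⟨hv, hw⟩, hb.1, hbi⟩
      · rw [hK', INI_adj_lr] at hb
        obtain ⟨rfl, _, hk⟩ := hb
        rw [hc, INI_c_lr] at hbi
        exact Or.inr ⟨j, by omega, hbi⟩
    · rintro (⟨w, hw, h1, h2⟩ | ⟨j, hj, h1⟩)
      · refine ⟨Sum.inl w, ?_, ?_⟩
        · rw [hK', INI_adj_ll]
          exact ⟨h1, fun h => hw h.2⟩
        · rw [hc, INI_c_ll]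
          exact h2
      · refine ⟨Sum.inr (v, ⟨j, by omega⟩), ?_, ?_⟩
        · rw [hK', INI_adj_lr]
          exact ⟨rfl, hv, by simp only; omega⟩
        · rw [hc, INI_c_lr]
          exact h1
  set S : ℕ → Finset V := fun i => X.filter fun v =>
    ∃ w, w ∈ X ∧ (Kd G x0 y0).Adj v w ∧ φ s(v, w) = i with hS
  have hSeven : ∀ i, (S i).card % 2 = 0 := by
    intro i
    obtain ⟨⟨hinv, hmat⟩, hval, hpt⟩ := hPTN V (Kd G x0 y0) D φ hφ i
    have h0 : ∑ v ∈ S i, (1 : ZMod 2) = 0 := by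
      refine Finset.sum_involution (fun v _ => ptn (Kd G x0 y0) φ i v) ?_ ?_ ?_ ?_
      · intro v _
        decide
      · intro v hv _
        obtain ⟨_, w, hw, h1, h2⟩ := Finset.mem_filter.1 hv
        exact (hpt v).2 ⟨w, h1, h2⟩
      · intro v hv
        obtain ⟨hvX, w, hw, h1, h2⟩ := Finset.mem_filter.1 hv
        have h3 := (hval v w h1).2 h2
        show ptn (Kd G x0 y0) φ i v ∈ S i
        rw [h3]
        exact Finset.mem_filter.2 ⟨hw, v, hvX, h1.symm, by rw [Sym2.eq_swap]; exact h2⟩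
      · intro v _
        exact hinv v
    rw [Finset.sum_const, nsmul_eq_mul, mul_one, ZMod.natCast_eq_zero_iff_even] at h0
    exact Nat.even_iff.1 h0
  have hnX : ∀ i, nX K' c (XT X D) i = (X.filter fun v => has K' c (Sum.inl v) i).card := by
    intro i
    unfold nX XT
    rw [Finset.filter_map, Finset.card_map]
    rfl
  have hnX2 : ∀ i, nX K' c (XT X D) i + (X.filter fun v => ¬ has K' c (Sum.inl v) i).card =
      X.card := by
    intro i
    rw [hnX]
    exact Finset.card_filter_add_card_filter_not _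
  have hnot : ∀ i < D, ∀ v ∈ X, v ≠ x0 →
      (¬ has K' c (Sum.inl v) i ↔ ∃ w, w ∈ X ∧ (Kd G x0 y0).Adj v w ∧ φ s(v, w) = i) := by
    intro i hi v hv hne
    rw [hhas v hv i]
    constructor
    · intro h
      rw [not_or] at h
      by_cases hp : has (Kd G x0 y0) φ v i
      · obtain ⟨w, h1, h2⟩ := hp
        refine ⟨w, ?_, h1, h2⟩
        by_contra hw
        exact h.1 ⟨w, hw, h1, h2⟩
      · exfalso
        have h1 : i ∈ INI_M (Kd G x0 y0) D φ v :=
          Finset.mem_filter.2 ⟨Finset.mem_range.2 hi, hp⟩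
        obtain ⟨j, hj, hji⟩ := INI_f_surj _ _ _ _ _ h1
        rw [hMx v hv hne] at hj
        exact h.2 ⟨j, hj, hji⟩
    · rintro ⟨w, hw, h1, h2⟩ (⟨w', hw', h3, h4⟩ | ⟨j, hj, h3⟩)
      · have := hφ.2 _ _ _ h1 h3 (h2.trans h4.symm)
        exact hw' (this ▸ hw)
      · have h4 := INI_f_mem (Kd G x0 y0) D φ v j (lt_of_lt_of_le hj (hMle v))
        rw [h3] at h4
        exact (Finset.mem_filter.1 h4).2 ⟨w, h1, h2⟩
  have hnot0 : ∀ i < D, (¬ has K' c (Sum.inl x0) i ↔
      i = α ∨ ∃ w, w ∈ X ∧ (Kd G x0 y0).Adj x0 w ∧ φ s(x0, w) = i) := by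
    intro i hi
    rw [hhas x0 hx0 i, hd0]
    constructor
    · intro h
      rw [not_or] at h
      by_cases hp : has (Kd G x0 y0) φ x0 i
      · obtain ⟨w, h1, h2⟩ := hp
        refine Or.inr ⟨w, ?_, h1, h2⟩
        by_contra hw
        exact h.1 ⟨w, hw, h1, h2⟩
      · left
        have h1 : i ∈ INI_M (Kd G x0 y0) D φ x0 :=
          Finset.mem_filter.2 ⟨Finset.mem_range.2 hi, hp⟩
        rw [hα] at h1
        exact Finset.mem_singleton.1 h1
    · intro h h'
      rcases h' with ⟨w', hw', h3, h4⟩ | ⟨j, hj, h3⟩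
      · rcases h with rfl | ⟨w, hw, h1, h2⟩
        · exact hαh ⟨w', h3, h4⟩
        · have := hφ.2 _ _ _ h1 h3 (h2.trans h4.symm)
          exact hw' (this ▸ hw)
      · omega
  have hx0α : x0 ∉ S α := by
    intro h
    obtain ⟨_, w, hw, h1, h2⟩ := Finset.mem_filter.1 h
    exact hαh ⟨w, h1, h2⟩
  refine ⟨c, α, ⟨hpec, hαD, (hnot0 α hαD).2 (Or.inl rfl), ?_, ?_⟩⟩
  · intro i hi hne
    have h1 : (X.filter fun v => ¬ has K' c (Sum.inl v) i) = S i := by
      ext v
      simp only [hS, Finset.mem_filter]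
      constructor
      · rintro ⟨hv, h⟩
        refine ⟨hv, ?_⟩
        by_cases hv0 : v = x0
        · subst hv0
          rcases (hnot0 i hi).1 h with h2 | h2
          · exact (hne h2).elim
          · exact h2
        · exact (hnot i hi v hv hv0).1 h
      · rintro ⟨hv, h⟩
        refine ⟨hv, ?_⟩
        by_cases hv0 : v = x0
        · subst hv0
          exact (hnot0 i hi).2 (Or.inr h)
        · exact (hnot i hi v hv hv0).2 h
    have h2 := hnX2 i
    rw [h1] at h2
    have h3 := hSeven i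
    show nX K' c (XT X D) i % 2 = X.card % 2
    omega
  · have h1 : (X.filter fun v => ¬ has K' c (Sum.inl v) α) = insert x0 (S α) := by
      ext v
      simp only [hS, Finset.mem_filter, Finset.mem_insert]
      constructor
      · rintro ⟨hv, h⟩
        by_cases hv0 : v = x0
        · exact Or.inl hv0
        · exact Or.inr ⟨hv, (hnot α hαD v hv hv0).1 h⟩
      · rintro (rfl | ⟨hv, h⟩)
        · exact ⟨hx0, (hnot0 α hαD).2 (Or.inl rfl)⟩
        · refine ⟨hv, ?_⟩
          by_cases hv0 : v = x0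
          · subst hv0
            exact (hnot0 α hαD).2 (Or.inl rfl)
          · exact (hnot α hαD v hv hv0).2 h
    have h2 := hnX2 α
    rw [h1, Finset.card_insert_of_notMem hx0α] at h2
    have h3 := hSeven α
    show nX K' c (XT X D) α % 2 ≠ X.card % 2
    omega

end

end Pool.Agent.OF
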