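import Pool.Agent.helper86.OF.SpecM

set_option autoImplicit false

open scoped BigOperators

namespace Pool.Agent.OF

noncomputable section

open Classical

/-- lower bound for the number of edges between large sets -/
theorem MRS_ep {V : Type} [Fintype V] (C : SimpleGraph V) (P Q S T : Finset V) (ε ζ θ : ℝ)
    (hε : 0 < ε) (hθ : θ ≤ ε / 2)
    (hPQ : ∀ s ∈ P, ∀ w, C.Adj s w → w ∈ Q)
    (hdg : ∀ s ∈ P, (1 / 4 + ε) * Fintype.card V ≤ dg C s)
    (hQ : (Q.card : ℝ) ≤ (1 / 2 + θ) * Fintype.card V) (hS : S ⊆ P) (hT : T ⊆ Q)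
    (hSc : ζ / 8 * Fintype.card V ≤ S.card)
    (hTc : (Q.card : ℝ) / 2 - ε / 4 * Fintype.card V ≤ T.card) :
    ζ * ε / 16 * (Fintype.card V : ℝ) ^ 2 ≤ ep C S T := by
  have hN : (0 : ℝ) ≤ Fintype.card V := Nat.cast_nonneg _
  have h1 : ∀ s ∈ S, ε / 2 * Fintype.card V ≤ (dgs C T s : ℝ) := by
    intro s hs
    have h2 : dg C s ≤ dgs C T s + (Q \ T).card := by
      unfold dg dgs
      refine (Finset.card_le_card ?_).trans (Finset.card_union_le _ _)
      intro w hw
      have hw' := (Finset.mem_filter.1 hw).2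
      have hwQ := hPQ s (hS hs) w hw'
      by_cases hwT : w ∈ T
      · exact Finset.mem_union_left _ (Finset.mem_filter.2 ⟨hwT, hw'⟩)
      · exact Finset.mem_union_right _ (Finset.mem_sdiff.2 ⟨hwQ, hwT⟩)
    have h3 : (Q \ T).card + T.card = Q.card := by
      rw [Finset.card_sdiff_of_subset hT]
      have := Finset.card_le_card hT
      omega
    have h2' : (dg C s : ℝ) ≤ dgs C T s + (Q \ T).card := by exact_mod_cast h2
    have h3' : ((Q \ T).card : ℝ) + T.card = Q.card := by exact_mod_cast h3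
    have h4 := hdg s (hS hs)
    nlinarith
  have h5 : (S.card : ℝ) * (ε / 2 * Fintype.card V) ≤ (ep C S T : ℝ) := by
    unfold ep
    rw [Nat.cast_sum]
    have := Finset.card_nsmul_le_sum S (fun s => (dgs C T s : ℝ)) (ε / 2 * Fintype.card V) h1
    rwa [nsmul_eq_mul] at this
  have h6 : 0 ≤ ε / 2 * Fintype.card V := by positivity
  have h7 := mul_le_mul_of_nonneg_right hSc h6
  calc ζ * ε / 16 * (Fintype.card V : ℝ) ^ 2
      = ζ / 8 * Fintype.card V * (ε / 2 * Fintype.card V) := by ring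
    _ ≤ (S.card : ℝ) * (ε / 2 * Fintype.card V) := h7
    _ ≤ _ := h5

theorem MRS (hRND : RND_stmt) : MRS_stmt := by
  intro ε ζ hε hζ
  refine ⟨ζ ^ 2 * ε / 32, by positivity, ?_⟩
  intro η hη
  set η' : ℝ := min (η / 8) (min (ζ ^ 2 * ε / 32) (1 / 8)) with hη'
  have hη'0 : 0 < η' := by
    refine lt_min (by positivity) (lt_min (by positivity) (by norm_num))
  have hη'1 : η' ≤ η / 8 := min_le_left _ _
  have hη'2 : η' ≤ ζ ^ 2 * ε / 32 := (min_le_right _ _).trans (min_le_left _ _)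
  have hη'3 : η' ≤ 1 / 8 := (min_le_right _ _).trans (min_le_right _ _)
  obtain ⟨N1, hN1⟩ := hRND η' hη'0
  set θ : ℝ := min (ε / 2) (min (ζ / 6) (η / 8)) with hθ
  have hθ0 : 0 < θ := by
    refine lt_min (by positivity) (lt_min (by positivity) (by positivity))
  have hθ1 : θ ≤ ε / 2 := min_le_left _ _
  have hθ2 : θ ≤ ζ / 6 := (min_le_right _ _).trans (min_le_left _ _)
  have hθ3 : θ ≤ η / 8 := (min_le_right _ _).trans (min_le_right _ _)
  refine ⟨θ, max N1 1, hθ0, ?_⟩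
  intro V _ W C E0 A X q f H h U U3 hN hM
  have hNN : N1 ≤ Fintype.card V := (le_max_left _ _).trans hN
  have hN1' : 1 ≤ Fintype.card V := (le_max_right _ _).trans hN
  have hNpos : (1 : ℝ) ≤ Fintype.card V := by exact_mod_cast hN1'
  set N : ℝ := (Fintype.card V : ℝ) with hNdef
  have hN0 : 0 < N := by linarith
  have hq : N / 8 ≤ q := hM.ql
  have hqf : (q : ℝ) + f ≤ N := by
    have h : ((q + f : ℕ) : ℝ) ≤ ((Fintype.card V : ℕ) : ℝ) := Nat.cast_le.2 hM.le
    rw [Nat.cast_add] at h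
    exact h
  have hf : ζ * N ≤ f := hM.fl
  have hζN : 0 < ζ * N := by positivity
  have hqf0 : 0 < (q : ℝ) + f := by linarith
  set p : ℝ := (f + η' * N) / (q + f) with hp
  have hη'N : 0 < η' * N := by positivity
  have hp0 : 0 ≤ p := by
    rw [hp]
    apply div_nonneg
    · linarith
    · linarith
  have hpm : p * (q + f) = f + η' * N := by
    rw [hp]
    exact div_mul_cancel₀ _ hqf0.ne'
  have hp1 : p ≤ 1 := by
    rw [hp, div_le_one hqf0]
    nlinarith
  have hpζ : ζ ≤ p := by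
    rw [hp, le_div_iff₀ hqf0]
    nlinarith
  obtain ⟨R, hRC, hRdg, hRep⟩ := hN1 V C p hNN hp0 hp1
  have hs : ∀ x ∈ X, (dg C x : ℝ) ≤ q + f ∧ (q : ℝ) + f - 3 * θ * N ≤ dg C x := by
    intro x hx
    have h1 := hM.deg x hx
    obtain ⟨h2, h3, h4⟩ := hM.lit x hx
    have h1' : (dg W x : ℝ) + dg C x + ((Finset.range q).filter fun i => x ∈ H i).card + h x =
        q + f := by exact_mod_cast h1
    have h5 : (0 : ℝ) ≤ dg W x := Nat.cast_nonneg _
    have h6 : (0 : ℝ) ≤ ((Finset.range q).filter fun i => x ∈ H i).card := Nat.cast_nonneg _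
    have h7 : (0 : ℝ) ≤ h x := Nat.cast_nonneg _
    constructor
    · linarith
    · linarith
  have hθN : 0 < θ * N := by positivity
  have key1 : ∀ x ∈ X, (dg C x : ℝ) ≤ dg R x + q := by
    intro x hx
    have h1 := (abs_le.1 (hRdg x)).1
    obtain ⟨h2, h3⟩ := hs x hx
    have h4 : (1 - p) * dg C x ≤ (1 - p) * (q + f) :=
      mul_le_mul_of_nonneg_left h2 (by linarith)
    nlinarith
  have key2 : ∀ x ∈ X, (q : ℝ) + dg R x ≤ dg C x + η * N := by
    intro x hx
    have h1 := (abs_le.1 (hRdg x)).2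
    obtain ⟨h2, h3⟩ := hs x hx
    have h4 : (1 - p) * (q + f - 3 * θ * N) ≤ (1 - p) * dg C x :=
      mul_le_mul_of_nonneg_left h3 (by linarith)
    have h5 : 0 ≤ p * (3 * θ * N) := by positivity
    have h6 : 2 * (η' * N) + 3 * (θ * N) ≤ η * N := by
      have : 2 * η' + 3 * θ ≤ η := by linarith
      nlinarith
    nlinarith
  have key3 : ∀ x ∈ X, (f : ℝ) ≤ 2 * dg R x := by
    intro x hx
    have h1 := (abs_le.1 (hRdg x)).1
    obtain ⟨h2, h3⟩ := hs x hx
    have h4 : p * (q + f - 3 * θ * N) ≤ p * dg C x := mul_le_mul_of_nonneg_left h3 hp0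
    have h5 : p * (3 * θ * N) ≤ 1 * (3 * θ * N) :=
      mul_le_mul_of_nonneg_right hp1 (by positivity)
    have h6 : 3 * (θ * N) ≤ ζ * N / 2 := by nlinarith
    nlinarith
  have key4 : ∀ P Q : Finset V, Disjoint P Q → (∀ s ∈ P, ∀ w, C.Adj s w → w ∈ Q) → P ⊆ X →
      (Q.card : ℝ) ≤ (1 / 2 + θ) * N →
      Expd R P Q (ζ / 8) (ε / 4) (ζ ^ 2 * ε / 32) := by
    intro P Q hPQd hPQ hPX hQc S T hS hT hSc hTc
    have h1 := MRS_ep C P Q S T ε ζ θ hε hθ1 hPQ
      (fun s hs => hM.cdg s (hPX hs)) hQc hS hT hSc hTc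
    have h2 := (abs_le.1 (hRep S T (Finset.disjoint_of_subset_left hS
      (Finset.disjoint_of_subset_right hT hPQd)))).1
    have h3 : ζ * (ζ * ε / 16 * N ^ 2) ≤ p * ep C S T := by
      refine mul_le_mul hpζ h1 (by positivity) hp0
    have h4 : η' * N ^ 2 ≤ ζ ^ 2 * ε / 32 * N ^ 2 :=
      mul_le_mul_of_nonneg_right hη'2 (by positivity)
    show ζ ^ 2 * ε / 32 * N ^ 2 ≤ ep R S T
    nlinarith
  refine ⟨R, hRC, ?_, key2, ?_, ?_, ?_⟩
  · intro x hx
    exact_mod_cast key1 x hx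
  · intro x hx
    exact_mod_cast key3 x hx
  · refine key4 _ _ ?_ ?_ Finset.inter_subset_left hM.szB
    · rw [Finset.disjoint_left]
      intro a ha hb
      exact (Finset.mem_sdiff.1 hb).2 (Finset.mem_inter.1 ha).2
    · intro s hs w hw
      obtain ⟨_, h2, h3⟩ := hM.cX s w hw
      refine Finset.mem_sdiff.2 ⟨h2, fun hA => h3 ?_⟩
      exact ⟨fun _ => hA, fun _ => (Finset.mem_inter.1 hs).2⟩
  · refine key4 _ _ ?_ ?_ Finset.sdiff_subset hM.szA
    · rw [Finset.disjoint_left]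
      intro a ha hb
      exact (Finset.mem_sdiff.1 ha).2 (Finset.mem_inter.1 hb).2
    · intro s hs w hw
      obtain ⟨_, h2, h3⟩ := hM.cX s w hw
      refine Finset.mem_inter.2 ⟨h2, ?_⟩
      by_contra hA
      exact h3 ⟨fun hs' => absurd hs' (Finset.mem_sdiff.1 hs).2, fun hw' => absurd hw' hA⟩

end

end Pool.Agent.OF
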