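import Pool.Agent.helper86.OF.SpecL

set_option autoImplicit false

open scoped BigOperators

namespace Pool.Agent.OF

noncomputable section

open Classical

theorem PTN : PTN_stmt := by
  intro V _ G D c hc i
  have key : ∀ v w, G.Adj v w → c s(v, w) = i → ptn G c i v = w := by
    intro v w hvw hi
    have h : ∃ w, G.Adj v w ∧ c s(v, w) = i := ⟨w, hvw, hi⟩
    have e : ptn G c i v = h.choose := by
      unfold ptn
      exact dif_pos h
    rw [e]
    exact hc.2 v _ _ h.choose_spec.1 hvw (h.choose_spec.2.trans hi.symm)
  have key2 : ∀ v, ¬ has G c v i → ptn G c i v = v := by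
    intro v hv
    unfold ptn
    exact dif_neg hv
  have hmain : ∀ v, ptn G c i v ≠ v ↔ has G c v i := by
    intro v
    constructor
    · intro h
      by_contra hh
      exact h (key2 v hh)
    · rintro ⟨w, hw, hi⟩ h
      rw [key v w hw hi] at h
      exact G.ne_of_adj hw h.symm
  refine ⟨⟨?_, ?_⟩, ?_, hmain⟩
  · intro v
    by_cases hv : has G c v i
    · obtain ⟨w, hw, hi⟩ := hv
      rw [key v w hw hi]
      exact key w v hw.symm (by rw [Sym2.eq_swap]; exact hi)
    · rw [key2 v hv, key2 v hv]
  · intro v hv
    obtain ⟨w, hw, hi⟩ := (hmain v).1 hv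
    rw [key v w hw hi]
    exact hw
  · intro v w hvw
    constructor
    · intro h
      have hv : has G c v i := (hmain v).1 (by rw [h]; exact (G.ne_of_adj hvw).symm)
      obtain ⟨w', hw', hi⟩ := hv
      have := key v w' hw' hi
      rw [h] at this
      subst this
      exact hi
    · exact key v w hvw

end

end Pool.Agent.OF
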